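import Pool.Agent.H58.CT.Targets

/-!
# Cyclic terms: cyclic relations contain constant tuples
-/

set_option autoImplicit false

namespace Pool.Agent.H89.CT

open Pool.Agent.H58.CT

theorem shift_nat {A : Type} {p : ℕ} {R : Set (ZMod p → A)} (hsh : ∀ r ∈ R, sh r ∈ R) :
    ∀ (k : ℕ), ∀ r ∈ R, (fun j : ZMod p => r (j + (k : ZMod p))) ∈ R := by
  intro k
  induction k with
  | zero =>
    intro r hr
    simpa using hr
  | succ k ih =>
    intro r hr
    have h := hsh _ (ih r hr)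
    have e : sh (fun j : ZMod p => r (j + (k : ZMod p))) =
        fun j : ZMod p => r (j + ((k + 1 : ℕ) : ZMod p)) := by
      funext j
      change r (j + 1 + (k : ZMod p)) = _
      congr 1
      push_cast
      ring
    rwa [e] at h

theorem step_IND (hLNE : T_LNE) (hSIM : T_SIM) (hSBA : T_SBA) (hQUO : T_QUO)
    (𝒞 : Cln) (A : Type) [Alg 𝒞 A] [Finite A] (p : ℕ) [Fact p.Prime] (R : Set (ZMod p → A))
    (hCC : CC 𝒞 p (Nat.card A)) (hNP : NoPrj 𝒞) (hcard : Nat.card A < p) (hne : R.Nonempty)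
    (hsub : Sub 𝒞 R) (hsh : ∀ r ∈ R, sh r ∈ R) : ∃ a : A, (fun _ => a) ∈ R := by
  have : NeZero p := ⟨(Fact.out : p.Prime).ne_zero⟩
  by_cases hD : (fun r : ZMod p → A => r 0) '' R = Set.univ
  · have hsurj : ∀ a : A, ∃ r ∈ R, r 0 = a := by
      intro a
      have ha : a ∈ (fun r : ZMod p → A => r 0) '' R := by
        rw [hD]
        exact Set.mem_univ a
      obtain ⟨r, hr, h⟩ := ha
      exact ⟨r, hr, h⟩
    by_cases hS : Smp 𝒞 A
    · rcases hLNE 𝒞 A p R hS hcard hne hsub hsh hsurj with h | h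
      · exact h
      · have hcyc : Cyc 𝒞 R := ⟨hne, hsub, hsh, hsurj, h⟩
        rcases hSIM 𝒞 A p R hNP hS hcard hcyc with h' | ⟨M, hM, hMne, h'⟩
        · exact h'
        · exact hSBA 𝒞 A p R M hCC hsub hsh hM hMne h'
    · unfold Smp at hS
      push Not at hS
      obtain ⟨e, he, h1, h2⟩ := hS
      obtain ⟨M, hM, hMne, h'⟩ := hQUO 𝒞 A p R e hCC hne hsub hsh he h1 h2
      exact hSBA 𝒞 A p R M hCC hsub hsh hM hMne h'
  · refine hSBA 𝒞 A p R _ hCC hsub hsh (sub_image (hm_eval (𝒞 := 𝒞) (0 : ZMod p)) hsub) hD ?_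
    obtain ⟨r, hr⟩ := hne
    refine ⟨r, hr, fun j => ?_⟩
    refine ⟨_, shift_nat hsh j.val r hr, ?_⟩
    change r (0 + ((j.val : ℕ) : ZMod p)) = r j
    rw [ZMod.natCast_zmod_val, zero_add]

theorem pf_IND (hLNE : T_LNE) (hSIM : T_SIM) (hSBA : T_SBA) (hQUO : T_QUO) : T_IND := by
  intro 𝒞 A _ _ p _ R hNP hcard hne hsub hsh
  have key : ∀ n : ℕ, n ≤ p → CC 𝒞 p n := by
    intro n
    induction n with
    | zero =>
      intro _ B _ _ Q hB
      exact absurd hB (Nat.not_lt_zero _)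
    | succ n ih =>
      intro hn B _ _ Q hB hQne hQsub hQsh
      have hCC : CC 𝒞 p n := ih (by omega)
      rcases Nat.lt_succ_iff_lt_or_eq.1 hB with h | h
      · exact hCC B Q h hQne hQsub hQsh
      · refine step_IND hLNE hSIM hSBA hQUO 𝒞 B p Q ?_ hNP (by omega) hQne hQsub hQsh
        rw [h]
        exact hCC
  exact key p le_rfl A R hcard hne hsub hsh

end Pool.Agent.H89.CT
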